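import Mathlib
import Pool.Agent.Run7.h965.Core
import Pool.Agent.Run7.h965.Erd

set_option autoImplicit false

namespace Pool.Agent.Results.MP_1ea053_nt.FinitelyManyExceptions

/-- Only finitely many finite sets of at least two positive integers have reciprocals summing to
`1` and all differences of consecutive elements at most `2`: all but finitely many solutions have
maximal gap at least `3`. -/
theorem result : {S : Finset ℕ | 2 ≤ S.card ∧ (∀ x ∈ S, 0 < x) ∧
    (∑ x ∈ S, (1 : ℚ) / (x : ℚ)) = 1 ∧
    ∀ x ∈ S, ∀ y ∈ S, x < y → ∃ z ∈ S, x < z ∧ z ≤ x + 2}.Finite :=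
  Pool.Agent.Run7.h965.gaps_two Pool.Agent.Run7.h965.coreLoc

end Pool.Agent.Results.MP_1ea053_nt.FinitelyManyExceptions
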